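import Pool.Agent.TH464.PO.ShiftInst
import Pool.Agent.TH464.PO.GapFam

set_option autoImplicit false

/-!
# The joint law of consecutive gaps between almost prime quadruples `m`, `m + a`, `m + b`, `m +
c`, uniformly

Let `m` be good if `m`, `m + a`, `m + b` and `m + c` all have at most `r` prime factors, all
larger than `X ^ (1 / r)`. Let `V` be the product of `1 - ρ(p) / p` over the primes `p ≤ X ^ (1 /
r)`. Given `θ > 0`, a number `s` of gaps and an accuracy `ε`, for all `r ≥ r0` and all large `X`,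
uniformly for all admissible `a < b < c ≤ X`, in ALL intervals `(Z, Z + Y]` inside `[0, 2 X]` of
length `Y ≥ X ^ θ` and for ALL `t_0, ..., t_(s-1)`: the proportion of the good integers `n` in
`(Z, Z + Y]` whose next `s` gaps are larger than `t_0`, ..., `t_(s-1)` is the product of the `e ^
(-t_j V)` up to `ε`. So `s` consecutive gaps are asymptotically independent, and each is
exponential in the scale `1 / V`.
-/

namespace Pool.Agent.Results.MP_c03ca8_nt.ConsecutiveGaps

open Finset Filter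

/-- `N` has at most `B` prime factors (with multiplicity), all of them larger than `z`. -/
def AlmostPrime (B : ℕ) (z : ℝ) (N : ℕ) : Prop :=
  N.primeFactorsList.length ≤ B ∧ ∀ p : ℕ, p.Prime → p ∣ N → z < (p : ℝ)

/-- `m` is good: `m`, `m + a`, `m + b` and `m + c` all have at most `r` prime factors, all larger than `X ^ (1 / r)`. -/
def Good (r X a b c m : ℕ) : Prop :=
  AlmostPrime r ((X : ℝ) ^ (1 / (r : ℝ))) m ∧ AlmostPrime r ((X : ℝ) ^ (1 / (r : ℝ))) (m + a) ∧
    AlmostPrime r ((X : ℝ) ^ (1 / (r : ℝ))) (m + b) ∧ AlmostPrime r ((X : ℝ) ^ (1 / (r : ℝ))) (m + c)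

/-- The quadruple `m`, `m + a`, `m + b`, `m + c` is admissible: it has no fixed prime divisor. -/
def Admissible (a b c : ℕ) : Prop :=
  ∀ p : ℕ, p.Prime → ∃ m : ℕ, ¬ p ∣ m ∧ ¬ p ∣ m + a ∧ ¬ p ∣ m + b ∧ ¬ p ∣ m + c

open Classical in
/-- The sieve density: the product of `1 - ρ(p) / p` over the primes `p ≤ X ^ (1 / r)`, where `ρ(p)` is
the number of the `t` mod `p` with `p ∣ t`, `p ∣ t + a`, `p ∣ t + b` or `p ∣ t + c`. -/
noncomputable def V (r X a b c : ℕ) : ℝ :=
  ∏ p ∈ (Finset.range (⌊(X : ℝ) ^ (1 / (r : ℝ))⌋₊ + 1)).filter Nat.Prime,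
    (1 - (((Finset.range p).filter (fun t : ℕ => p ∣ t ∨ p ∣ t + a ∨ p ∣ t + b ∨ p ∣ t + c)).card : ℝ) / p)

/-- The next good integer after `n`. -/
noncomputable def next (r X a b c : ℕ) (n : ℕ) : ℕ :=
  sInf {m | n < m ∧ Good r X a b c m}

/-- The `j`-th gap after `n`: the distance between the `j`-th and the `(j + 1)`-st good integer after `n`,
where the `0`-th is `n` itself. -/
noncomputable def gap (r X a b c : ℕ) (n j : ℕ) : ℕ :=
  (next r X a b c)^[j + 1] n - (next r X a b c)^[j] n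

open Pool.Agent.TH464.PO

open Classical in
/-- **The joint law of `s` consecutive gaps**, uniformly in the pattern, in all intervals and for all gap
lengths. -/
theorem result (θ : ℝ) (hθ : 0 < θ) (s : ℕ) (ε : ℝ) (hε : 0 < ε) :
    ∃ r0 : ℕ, ∀ r : ℕ, r0 ≤ r → ∀ᶠ X : ℕ in atTop, ∀ a b c : ℕ, 1 ≤ a → a < b → b < c → c ≤ X → Admissible a b c →
      ∀ Z Y : ℕ, (X : ℝ) ^ θ ≤ Y → Z + Y ≤ 2 * X → ∀ t : Fin s → ℕ,
        |(((Finset.Ioc Z (Z + Y)).filter
            (fun m => Good r X a b c m ∧ ∀ j : Fin s, t j < gap r X a b c m j)).card : ℝ) -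
          Y * V r X a b c * ∏ j, Real.exp (-(t j * V r X a b c))| ≤ ε * (Y * V r X a b c) := by
  obtain ⟨r0, h⟩ := sh_igap 4 (by norm_num) θ hθ s ε hε
  refine ⟨r0, fun r hr => ?_⟩
  filter_upwards [h r hr] with X hX a b c ha hb hc hcX had
  exact hX (P4 a b c) (P4_card a b c ha hb hc) (P4_le a b c X hb hc hcX) (P4_ad a b c had)
    (Good r X a b c) (V r X a b c) (P4_ap a b c r _) (P4_V a b c _)

end Pool.Agent.Results.MP_c03ca8_nt.ConsecutiveGaps
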