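import Pool.Agent.TH464.PO.ShiftInst

set_option autoImplicit false

/-!
# Almost prime quadruples `m`, `m + a`, `m + b`, `m + c`: the density in all windows around almost
all integers, uniformly

Let `m` be good if `m`, `m + a`, `m + b` and `m + c` all have at most `r` prime factors, all
larger than `X ^ (1 / r)`. Let `V` be the product of `1 - ρ(p) / p` over the primes `p ≤ X ^ (1 /
r)`. Given `θ > 0` and `ε > 0` there are `K` and `r0` such that for every `r ≥ r0` and all large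
`X`, uniformly for all admissible `a < b < c ≤ X`, in ALL intervals `(Z, Z + Y]` with `Z, Y ≥ X ^
θ`, `Z + Y ≤ 2 X`, for all but at most `ε Y` of the integers `n` of the interval ALL windows `(u,
v]` around `n` inside it of length at least `K / V` contain `(1 ± ε) (v - u) V` good integers.
-/

namespace Pool.Agent.Results.MP_c03ca8_nt.ExactWindows

open Finset Filter

/-- `N` has at most `B` prime factors (with multiplicity), all of them larger than `z`. -/
def AlmostPrime (B : ℕ) (z : ℝ) (N : ℕ) : Prop :=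
  N.primeFactorsList.length ≤ B ∧ ∀ p : ℕ, p.Prime → p ∣ N → z < (p : ℝ)

/-- `m` is good: `m`, `m + a`, `m + b` and `m + c` all have at most `r` prime factors, all larger than `X ^ (1 / r)`. -/
def Good (r X a b c m : ℕ) : Prop :=
  AlmostPrime r ((X : ℝ) ^ (1 / (r : ℝ))) m ∧ AlmostPrime r ((X : ℝ) ^ (1 / (r : ℝ))) (m + a) ∧
    AlmostPrime r ((X : ℝ) ^ (1 / (r : ℝ))) (m + b) ∧ AlmostPrime r ((X : ℝ) ^ (1 / (r : ℝ))) (m + c)

/-- The quadruple `m`, `m + a`, `m + b`, `m + c` is admissible: it has no fixed prime divisor. -/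
def Admissible (a b c : ℕ) : Prop :=
  ∀ p : ℕ, p.Prime → ∃ m : ℕ, ¬ p ∣ m ∧ ¬ p ∣ m + a ∧ ¬ p ∣ m + b ∧ ¬ p ∣ m + c

open Classical in
/-- The sieve density: the product of `1 - ρ(p) / p` over the primes `p ≤ X ^ (1 / r)`, where `ρ(p)` is
the number of the `t` mod `p` with `p ∣ t`, `p ∣ t + a`, `p ∣ t + b` or `p ∣ t + c`. -/
noncomputable def V (r X a b c : ℕ) : ℝ :=
  ∏ p ∈ (Finset.range (⌊(X : ℝ) ^ (1 / (r : ℝ))⌋₊ + 1)).filter Nat.Prime,
    (1 - (((Finset.range p).filter (fun t : ℕ => p ∣ t ∨ p ∣ t + a ∨ p ∣ t + b ∨ p ∣ t + c)).card : ℝ) / p)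

open Classical in
/-- The number of the good `m` in `(u, v]`. -/
noncomputable def N (r X a b c u v : ℕ) : ℕ :=
  ((Finset.Ioc u v).filter (fun m => Good r X a b c m)).card

/-- All windows around `n` inside `(Z, Z + Y]` of length at least `K / V` have the density `V` up to
`ε`. -/
def AllWindows (r X a b c : ℕ) (K ε : ℝ) (Z Y n : ℕ) : Prop :=
  ∀ u v : ℕ, Z ≤ u → u < n → n ≤ v → v ≤ Z + Y → K ≤ ((v : ℝ) - u) * V r X a b c →
    |(N r X a b c u v : ℝ) - (v - u) * V r X a b c| ≤ ε * ((v - u) * V r X a b c)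

open Pool.Agent.TH464.PO

open Classical in
/-- **The density in all windows around almost all integers**, uniformly. -/
theorem result (θ : ℝ) (hθ : 0 < θ) (ε : ℝ) (hε : 0 < ε) :
    ∃ (K : ℝ) (r0 : ℕ), 0 < K ∧ ∀ r : ℕ, r0 ≤ r → ∀ᶠ X : ℕ in atTop, ∀ a b c : ℕ, 1 ≤ a → a < b → b < c → c ≤ X → Admissible a b c →
      ∀ Z Y : ℕ, (X : ℝ) ^ θ ≤ Z → (X : ℝ) ^ θ ≤ Y → Z + Y ≤ 2 * X →
        (((Finset.Ioc Z (Z + Y)).filter (fun n => ¬ AllWindows r X a b c K ε Z Y n)).card : ℝ) ≤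
          ε * Y := by
  obtain ⟨K, r0, hK, h⟩ := sh_ex 4 (by norm_num) θ hθ ε hε
  refine ⟨K, r0, hK, fun r hr => ?_⟩
  filter_upwards [h r hr] with X hX a b c ha hb hc hcX had Z Y hXZ hXY hZY
  exact (hX (P4 a b c) (P4_card a b c ha hb hc) (P4_le a b c X hb hc hcX) (P4_ad a b c had)
    (Good r X a b c) (V r X a b c) (P4_ap a b c r _) (P4_V a b c _) Z Y hXZ hXY hZY).1

end Pool.Agent.Results.MP_c03ca8_nt.ExactWindows
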