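import Pool.Agent.TH977.PW.Powers

set_option autoImplicit false

/-!
# Almost prime quadruplets and their neighbours between consecutive fifth powers

Let `H = {0, 2, 6, 8}` and let `R r` be the set of the `p` for which all prime factors of all `p + h`
(`h ∈ H`) are larger than `p ^ (1 / r)`; it contains all `p` for which all `p + h` are prime. For all
large `n` there are at least `κ n ^ 4 / log ^ 4 n` integers `p` in `R r` with
`n ^ 5 < p < p + 8 < (n + 1) ^ 5` such that all `p + h` have at most `r` prime factors. Let `A` be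
an ARBITRARY subset of `R r` (these `p`, or the first elements of all prime quadruplets). For all large `n` all
but `ε n ^ 4 / log ^ 4 n` of the elements of `A` between `n ^ 5` and `(n + 1) ^ 5` are regular
points of `A`: all intervals around them of length between `log ^ 4 (n ^ 5) / c` and
`(n + 1) ^ 5 - n ^ 5` contain the right order of elements of `A`, with constant density up to `δ` at
all but `B (ε, δ)` dyadic scales.
-/

namespace Pool.Agent.Results.MP_c03ca8_nt.RegularQuadruplets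

open Finset Filter
open Pool.Agent.TH977.PW (N Irregular)

/-- the shifts -/
def H : Finset ℕ := {0, 2, 6, 8}

/-- All prime factors of all `p + h`, `h ∈ H`, are larger than `p ^ (1 / r)`. -/
def R (r : ℕ) : Set ℕ :=
  {p | ∀ h ∈ H, ∀ q : ℕ, q.Prime → q ∣ p + h → (p : ℝ) ^ (1 / (r : ℝ)) < (q : ℝ)}

/-- no local obstruction -/
lemma adm (p : ℕ) (hp : p.Prime) : ∃ m : ℕ, ∀ h ∈ H, ¬ p ∣ m + h := by
  rcases lt_or_ge p 30 with h30 | h30
  · refine ⟨101, fun h hh hd => ?_⟩
    simp only [H, mem_insert, mem_singleton] at hh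
    have := (Nat.prime_dvd_prime_iff_eq hp
      (by rcases hh with rfl | rfl | rfl | rfl <;> norm_num)).1 hd
    omega
  · refine ⟨5, fun h hh hd => ?_⟩
    simp only [H, mem_insert, mem_singleton] at hh
    have := Nat.le_of_dvd (by omega) hd
    omega

/-- **Almost prime quadruplets and their neighbours between consecutive fifth powers.** -/
theorem result : ∃ r₀ : ℕ, 2 ≤ r₀ ∧ ∀ r : ℕ, r₀ ≤ r →
      (∀ p : ℕ, (∀ h ∈ H, (p + h).Prime) → p ∈ R r) ∧
      (∃ κ : ℝ, 0 < κ ∧ ∀ᶠ n : ℕ in atTop, κ * n ^ 4 / Real.log n ^ 4 ≤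
        N {p | p ∈ R r ∧ ∀ h ∈ H, (p + h).primeFactorsList.length ≤ r}
          (n ^ 5) ((n + 1) ^ 5 - 1 - 8)) ∧
      ∀ ε : ℝ, 0 < ε → ∃ c : ℝ, 0 < c ∧ ∀ δ : ℝ, 0 < δ → ∃ B : ℕ,
        ∀ᶠ n : ℕ in atTop, ∀ A : Set ℕ, A ⊆ R r →
          (N (Irregular A 4 c δ B (n ^ 5) ((n + 1) ^ 5 - n ^ 5 - 1))
            (n ^ 5) ((n + 1) ^ 5 - 1) : ℝ) ≤ ε * n ^ 4 / Real.log n ^ 4 := by
  obtain ⟨r0, hr0, h⟩ := Pool.Agent.TH977.PW.final_powers H ⟨0, by simp [H]⟩ adm
    (fun r => R r) (fun r => {p | p ∈ R r ∧ ∀ h ∈ H, (p + h).primeFactorsList.length ≤ r})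
    4 (by decide) (fun r m _ hm => hm) (fun r _ m h1 h2 => ⟨h1, h2⟩) 4 8 (by norm_num)
  refine ⟨r0, hr0, fun r hr => ⟨?_, (h r hr).1, (h r hr).2⟩⟩
  intro p hp h hh q hq hdv
  have hp2 : 2 ≤ p := by simpa using (hp 0 (by simp [H])).two_le
  rw [(Nat.prime_dvd_prime_iff_eq hq (hp h hh)).1 hdv]
  exact Pool.Agent.TH977.PW.rpow_lt_of_le r p (p + h) (hr0.trans hr) hp2 (by omega)

end Pool.Agent.Results.MP_c03ca8_nt.RegularQuadruplets
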